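import Pool.Agent.Run7.h623.Pack

/-!
Precedence-constrained scheduling of unit jobs on (at most) `m` machines: if the order splits into
pairwise incomparable parts, then only the `m - 1` largest parts matter.  For three machines this
means that `P3|prec,p_j=1|C_max` only depends on the two largest parts (e.g. connected components)
and on the number of jobs.
-/

namespace Pool.Agent.Results.MP_538cb6_lc.LargestParts

open Finset Pool.Agent.Run7.h623

/-- `S` is a schedule (start times) of the unit-time jobs `J` with precedence constraints `<`, with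
`M t` machines available in the time step `[t,t+1)`, and with makespan at most `T`.
For `M = fun _ => 3` this is a feasible schedule of `P3|prec,p_j=1|C_max`. -/
structure IsSchedule (J : Type*) [PartialOrder J] (M : ℕ → ℕ) (T : ℕ) (S : J → ℕ) : Prop where
  cap : ∀ t, Nat.card {j : J // S j = t} ≤ M t
  prec : ∀ a b : J, a < b → S a + 1 ≤ S b
  span : ∀ j : J, S j + 1 ≤ T

/-- **Largest parts theorem.**  `c` splits the jobs into parts such that jobs of different parts are
incomparable, `D` is a set of parts none of which is smaller than a part outside `D`, and at most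
`|D| + 1` machines are ever available.  Then all jobs can be scheduled with makespan at most `T` if
and only if there are enough machine slots for all jobs and the jobs of the parts in `D` can be
scheduled with makespan at most `T`. -/
theorem result {J : Type*} [Finite J] [PartialOrder J] {ι : Type*} (c : J → ι)
    (hc : ∀ a b : J, a < b → c a = c b) (D : Finset ι)
    (hbig : ∀ i ∈ D, ∀ k, k ∉ D → Nat.card {j : J // c j = k} ≤ Nat.card {j : J // c j = i})
    (M : ℕ → ℕ) (hM : ∀ t, M t ≤ D.card + 1) (T : ℕ) :
    (∃ S : J → ℕ, IsSchedule J M T S) ↔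
      (Nat.card J ≤ ∑ t ∈ range T, M t ∧
        ∃ S : {j : J // c j ∈ D} → ℕ, IsSchedule {j : J // c j ∈ D} M T S) := by
  classical
  have := Fintype.ofFinite J
  have hcard : ∀ (p : J → Prop) [DecidablePred p],
      Nat.card {j : J // p j} = (univ.filter p).card := by
    intro p _
    rw [Nat.card_eq_fintype_card, Fintype.card_subtype]
  constructor
  · rintro ⟨S, hS⟩
    refine ⟨?_, fun j => S j.1, ?_, ?_, ?_⟩
    · rw [Nat.card_eq_fintype_card, ← card_univ,
        card_eq_sum_card_fiberwise (f := S) (t := range T)
          (fun j _ => mem_coe.mpr (mem_range.mpr (Nat.lt_of_succ_le (hS.span j))))]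
      apply sum_le_sum
      intro t _
      have h1 := hS.cap t
      rw [hcard] at h1
      exact h1
    · intro t
      refine le_trans ?_ (hS.cap t)
      exact Nat.card_le_card_of_injective
        (fun x : {j : {j : J // c j ∈ D} // S j.1 = t} => (⟨x.1.1, x.2⟩ : {j : J // S j = t}))
        (fun x y h => Subtype.ext (Subtype.ext (congrArg (fun z => z.1) h)))
    · intro a b hab
      exact hS.prec a.1 b.1 hab
    · intro j
      exact hS.span j.1
  · rintro ⟨hn, S₀, hS₀⟩
    let S : J → ℕ := fun j => if h : c j ∈ D then S₀ ⟨j, h⟩ else 0
    have hSD : ∀ j (h : c j ∈ D), S j = S₀ ⟨j, h⟩ := fun j h => dif_pos h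
    have hval : Valid M T c D S := by
      refine ⟨?_, ?_⟩
      · intro i hi
        refine ⟨?_, ?_⟩
        · intro a ha b hb hab
          rw [mem_part] at ha hb
          rw [hSD a (ha ▸ hi), hSD b (hb ▸ hi)]
          exact Nat.lt_of_succ_le (hS₀.prec ⟨a, ha ▸ hi⟩ ⟨b, hb ▸ hi⟩ hab)
        · intro a ha
          rw [mem_part] at ha
          rw [hSD a (ha ▸ hi)]
          exact Nat.lt_of_succ_le (hS₀.span _)
      · intro t
        refine le_trans ?_ (hS₀.cap t)
        have h1 : ∑ i ∈ D, U (part c i) S t =
            (univ.filter (fun j => c j ∈ D ∧ S j = t)).card := by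
          rw [card_eq_sum_card_fiberwise (f := c) (t := D)
            (fun j hj => by
              have := (mem_filter.mp (mem_coe.mp hj)).2.1
              exact mem_coe.mpr this)]
          apply sum_congr rfl
          intro i hi
          unfold U part
          congr 1
          ext j
          simp only [mem_filter, mem_univ, true_and]
          constructor
          · rintro ⟨h2, h3⟩; exact ⟨⟨h2 ▸ hi, h3⟩, h2⟩
          · rintro ⟨⟨_, h3⟩, h2⟩; exact ⟨h2, h3⟩
        rw [h1, ← hcard]
        refine Nat.card_le_card_of_injective
          (fun x : {j : J // c j ∈ D ∧ S j = t} =>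
            (⟨⟨x.1, x.2.1⟩, by rw [← hSD x.1 x.2.1]; exact x.2.2⟩ :
              {j : {j : J // c j ∈ D} // S₀ j = t})) ?_
        intro x y h
        exact Subtype.ext (congrArg (fun z => z.1.1) h)
    have hbig' : ∀ i ∈ D, ∀ k, k ∉ D → (part c k).card ≤ (part c i).card := by
      intro i hi k hk
      have := hbig i hi k hk
      rw [hcard, hcard] at this
      exact this
    obtain ⟨R, h1, h2, h3⟩ := largest_parts M T c hc D (fun t _ => hM t) hbig'
      (by rw [← Nat.card_eq_fintype_card]; exact hn) ⟨S, hval⟩
    refine ⟨R, ?_, fun a b hab => Nat.succ_le_of_lt (h2 a b hab),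
      fun j => Nat.succ_le_of_lt (h3 j)⟩
    intro t
    rw [hcard]
    exact h1 t

end Pool.Agent.Results.MP_538cb6_lc.LargestParts
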